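import Mathlib

set_option autoImplicit false

namespace Pool.Agent.Results.MP_0d307c_co.FlagTrans

variable {G : Type} [Group G] {r : ℕ}

def gen (ρ : Fin r → G) (I : Set (Fin r)) : Subgroup G := Subgroup.closure (ρ '' I)

def IsCGroup (ρ : Fin r → G) : Prop :=
  Function.Injective ρ ∧ (∀ i, ρ i ≠ 1 ∧ ρ i * ρ i = 1) ∧ gen ρ Set.univ = ⊤ ∧
    ∀ I J, gen ρ I ⊓ gen ρ J = gen ρ (I ∩ J)

def coset (ρ : Fin r → G) (i : Fin r) (g : G) : Set G := {x | ∃ h ∈ gen ρ {j | j ≠ i}, x = h * g}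

abbrev Elt (ρ : Fin r → G) : Type := {x : Fin r × Set G // ∃ g, x.2 = coset ρ x.1 g}

def Inc {ρ : Fin r → G} (x y : Elt ρ) : Prop := (x.1.2 ∩ y.1.2).Nonempty

def IsFlag {ρ : Fin r → G} (F : Set (Elt ρ)) : Prop := ∀ x ∈ F, ∀ y ∈ F, Inc x y

def IsChamber {ρ : Fin r → G} (F : Set (Elt ρ)) : Prop := IsFlag F ∧ ∀ i, ∃ x ∈ F, x.1.1 = i

def residue {ρ : Fin r → G} (F : Set (Elt ρ)) : Set (Elt ρ) :=
  {x | x ∉ F ∧ (∀ y ∈ F, y.1.1 ≠ x.1.1) ∧ ∀ y ∈ F, Inc x y}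

def Thin (ρ : Fin r → G) : Prop :=
  ∀ F : Set (Elt ρ), IsFlag F → F.ncard + 1 = r → {C | IsChamber C ∧ F ⊆ C}.ncard = 2

def ResConn (ρ : Fin r → G) : Prop :=
  ∀ F : Set (Elt ρ), IsFlag F →
    (F.ncard + 2 ≤ r → (SimpleGraph.fromRel fun x y : residue F => Inc x.1 y.1).Connected) ∧
    (F.ncard + 1 = r → (residue F).Nonempty)

def FlagTransitive (ρ : Fin r → G) : Prop :=
  ∀ C D : Set (Elt ρ), IsChamber C → IsChamber D → ∃ g : G, ∀ y, y ∈ D ↔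
    ∃ x ∈ C, y.1.1 = x.1.1 ∧ y.1.2 = (· * g) '' x.1.2

variable {ρ : Fin r → G}

lemma mem_coset {i : Fin r} {g x : G} : x ∈ coset ρ i g ↔ x * g⁻¹ ∈ gen ρ {j | j ≠ i} :=
  ⟨by rintro ⟨h, hh, rfl⟩; simpa using hh, fun h => ⟨_, h, by simp⟩⟩

lemma coset_eq {i : Fin r} {g x : G} (h : x ∈ coset ρ i g) : coset ρ i x = coset ρ i g := by
  ext y
  rw [mem_coset] at *
  rw [mem_coset, ← (gen ρ _).mul_mem_cancel_right h]
  simp

lemma Inc.symm {x y : Elt ρ} (h : Inc x y) : Inc y x := by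
  rw [Inc, Set.inter_comm]; exact h

lemma Inc.refl (x : Elt ρ) : Inc x x := by
  obtain ⟨g, hg⟩ := x.2
  exact ⟨g, by simp [hg, mem_coset]⟩

lemma IsFlag.inj {F : Set (Elt ρ)} (h : IsFlag F) : Set.InjOn (fun x : Elt ρ => x.1.1) F := by
  intro x hx y hy (e : x.1.1 = y.1.1)
  obtain ⟨z, h1, h2⟩ := h _ hx _ hy
  obtain ⟨g, hg⟩ := x.2
  obtain ⟨g', hg'⟩ := y.2
  rw [hg] at h1
  rw [hg', ← e] at h2
  exact Subtype.ext (Prod.ext e (by rw [hg, hg', ← e, ← coset_eq h1, coset_eq h2]))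

lemma IsFlag.fin {F : Set (Elt ρ)} (h : IsFlag F) : F.Finite :=
  Set.Finite.of_injOn (Set.mapsTo_univ _ _) h.inj Set.finite_univ

lemma IsFlag.le {F : Set (Elt ρ)} (h : IsFlag F) : F.ncard ≤ r := by
  simpa using Set.ncard_le_ncard_of_injOn _ (Set.mapsTo_univ _ _) h.inj Set.finite_univ

lemma IsFlag.ch {F : Set (Elt ρ)} (h : IsFlag F) : IsChamber F ↔ F.ncard = r := by
  rw [← h.inj.ncard_image]
  refine ⟨fun hc => by
    rw [Set.eq_univ_of_forall (s := (fun x : Elt ρ => x.1.1) '' F) hc.2]; simp, fun hc => ⟨h, fun i => ?_⟩⟩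
  have := Set.eq_of_subset_of_ncard_le (Set.subset_univ ((fun x : Elt ρ => x.1.1) '' F))
    (by simp [hc])
  exact this.ge trivial

lemma IsFlag.ins {F : Set (Elt ρ)} (h : IsFlag F) {x : Elt ρ} (hx : ∀ y ∈ F, Inc x y) :
    IsFlag (insert x F) := by
  rintro a (rfl | ha) b (rfl | hb)
  exacts [Inc.refl _, hx b hb, (hx a ha).symm, h a ha b hb]

lemma ext (hr : ResConn ρ) (n : ℕ) : ∀ F : Set (Elt ρ), IsFlag F → F.ncard + n = r →
    ∃ C, IsChamber C ∧ F ⊆ C := by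
  induction n with
  | zero => exact fun F h e => ⟨F, h.ch.mpr e, subset_rfl⟩
  | succ n ih =>
    intro F h e
    obtain ⟨x, hx⟩ : (residue F).Nonempty := by
      rcases n with _ | n
      · exact (hr F h).2 e
      · obtain ⟨x⟩ := ((hr F h).1 (by omega)).nonempty
        exact ⟨x.1, x.2⟩
    obtain ⟨C, h1, h2⟩ := ih _ (h.ins hx.2.2) (by rw [Set.ncard_insert_of_notMem hx.1 h.fin]; omega)
    exact ⟨C, h1, (Set.subset_insert _ _).trans h2⟩

def el (ρ : Fin r → G) (g : G) (i : Fin r) : Elt ρ := ⟨(i, coset ρ i g), g, rfl⟩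

lemma orb_ch (g : G) : IsChamber (Set.range (el ρ g)) :=
  ⟨by rintro _ ⟨i, rfl⟩ _ ⟨j, rfl⟩; exact ⟨g, by simp [el, mem_coset]⟩, fun i => ⟨_, ⟨i, rfl⟩, rfl⟩⟩

lemma res_mem {F C : Set (Elt ρ)} (hC : IsChamber C) (h : F ⊆ C) (hn : F.ncard < r) :
    ∃ x ∈ C, x ∈ residue F := by
  obtain ⟨x, h1, h2⟩ := Set.exists_mem_notMem_of_ncard_lt_ncard (s := F) (t := C)
    (by rwa [hC.1.ch.mp hC]) (hC.1.fin.subset h)
  exact ⟨x, h1, h2, fun y hy e => h2 (hC.1.inj (h hy) h1 e ▸ hy), fun y hy => hC.1 _ h1 _ (h hy)⟩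

lemma main (hc : IsCGroup ρ) (ht : Thin ρ) (hr : ResConn ρ) (n : ℕ) : ∀ F : Set (Elt ρ), IsFlag F →
    F.ncard + n = r → ∀ C D, IsChamber C → IsChamber D → F ⊆ C → F ⊆ D →
      (∃ g, C = Set.range (el ρ g)) → ∃ g, D = Set.range (el ρ g) := by
  induction n with
  | zero =>
    intro F h e C D hC hD h1 h2 h3
    rwa [← Set.eq_of_subset_of_ncard_le h2 (by rw [hD.1.ch.mp hD]; omega) hD.1.fin,
      Set.eq_of_subset_of_ncard_le h1 (by rw [hC.1.ch.mp hC]; omega) hC.1.fin]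
  | succ n ih =>
    intro F h e C D hC hD h1 h2 h3
    obtain ⟨x, x1, x2⟩ := res_mem hC h1 (by omega)
    rcases n with _ | n
    · obtain ⟨g, rfl⟩ := h3
      obtain ⟨i, rfl⟩ := x1
      have a1 : F ⊆ Set.range (el ρ (ρ i * g)) := fun y hy => by
        obtain ⟨j, rfl⟩ := h1 hy
        refine ⟨j, Subtype.ext (Prod.ext rfl (coset_eq (mem_coset.mpr ?_)))⟩
        rw [mul_inv_cancel_right]
        exact Subgroup.subset_closure ⟨i, (x2.2.1 _ hy).symm, rfl⟩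
      have a2 : Set.range (el ρ g) ≠ Set.range (el ρ (ρ i * g)) := fun e => by
        obtain ⟨j, hj⟩ : el ρ (ρ i * g) i ∈ Set.range (el ρ g) := e ▸ ⟨i, rfl⟩
        obtain ⟨rfl, h5⟩ : j = i ∧ coset ρ j g = coset ρ i (ρ i * g) :=
          Prod.mk.inj (congrArg Subtype.val hj)
        have h6 : ρ j * g ∈ coset ρ j g := by rw [h5]; exact mem_coset.mpr (by simp)
        have h7 : ρ j ∈ gen ρ {j} ⊓ gen ρ {k | k ≠ j} :=
          ⟨Subgroup.subset_closure ⟨j, rfl, rfl⟩, by simpa [mem_coset] using h6⟩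
        rw [hc.2.2.2] at h7
        exact (hc.2.1 j).1 (by simpa [gen] using h7)
      have a3 := Set.eq_of_subset_of_ncard_le
        (Set.pair_subset (s := {C | IsChamber C ∧ F ⊆ C}) ⟨hC, h1⟩ ⟨orb_ch _, a1⟩)
        (by rw [ht F h e, Set.ncard_pair a2])
        (Set.finite_of_ncard_ne_zero (by rw [ht F h e]; omega))
      rcases a3.ge ⟨hD, h2⟩ with a | a <;> exact ⟨_, a⟩
    obtain ⟨y, y1, y2⟩ := res_mem hD h2 (by omega)
    have st : ∀ z ∈ residue F, ∀ C D, IsChamber C → IsChamber D → insert z F ⊆ C → insert z F ⊆ D →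
        (∃ g, C = Set.range (el ρ g)) → ∃ g, D = Set.range (el ρ g) := fun z hz =>
      ih _ (h.ins hz.2.2) (by rw [Set.ncard_insert_of_notMem hz.1 h.fin]; omega)
    obtain ⟨p⟩ := ((hr F h).1 (by omega)) ⟨x, x2⟩ ⟨y, y2⟩
    have : ∀ (a b : residue F) (_ : (SimpleGraph.fromRel fun x y : residue F => Inc x.1 y.1).Walk a b),
        b.1 ∈ D → ∀ C, IsChamber C → insert a.1 F ⊆ C → (∃ g, C = Set.range (el ρ g)) →
          ∃ g, D = Set.range (el ρ g) := by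
      intro a b p hb
      induction p with
      | nil => exact fun C hC h4 => st _ (Subtype.prop _) C D hC hD h4 (Set.insert_subset hb h2)
      | @cons a c b hac p ih2 =>
        intro C hC h4 h5
        have h6 : Inc a.1 c.1 := ((SimpleGraph.fromRel_adj _ _ _).mp hac).2.elim id Inc.symm
        have h7 : IsFlag (insert a.1 (insert c.1 F)) := (h.ins c.2.2.2).ins (by
          rintro z (rfl | hz); exacts [h6, a.2.2.2 z hz])
        obtain ⟨E, e1, e2⟩ := ext hr (r - _) _ h7 (Nat.add_sub_cancel' h7.le)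
        exact ih2 hb E e1 ((Set.subset_insert _ _).trans e2) (st _ a.2 C E hC e1 h4
          ((Set.insert_subset_insert (Set.subset_insert _ _)).trans e2) h5)
    exact this _ _ p y1 C hC (Set.insert_subset x1 h1) h3

theorem result (G : Type) [Group G] (r : ℕ) (ρ : Fin r → G) (hc : IsCGroup ρ) (ht : Thin ρ)
    (hr : ResConn ρ) : FlagTransitive ρ := by
  have h := fun D hD => main hc ht hr r ∅ (by simp [IsFlag]) (by simp) _ D (orb_ch 1) hD
    (by simp) (by simp) ⟨1, rfl⟩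
  intro C D hC hD
  obtain ⟨a, rfl⟩ := h C hC
  obtain ⟨b, rfl⟩ := h D hD
  have e : ∀ i, coset ρ i b = (· * (a⁻¹ * b)) '' coset ρ i a := fun i => by
    ext x; simp [mem_coset, mul_assoc]
  refine ⟨a⁻¹ * b, fun y => ⟨?_, ?_⟩⟩
  · rintro ⟨i, rfl⟩; exact ⟨_, ⟨i, rfl⟩, rfl, e i⟩
  · rintro ⟨_, ⟨i, rfl⟩, h1, h2⟩
    exact ⟨i, Subtype.ext (Prod.ext h1.symm ((e i).trans h2.symm))⟩

end Pool.Agent.Results.MP_0d307c_co.FlagTrans
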